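import Pool.Agent.Q24.CG.Tri

/-!
The congruence subgroup property for triangular automorphisms of the free group.
-/

namespace Pool.Agent.Q24.CG

open Pool.Agent.Q24.PG

variable {n : ℕ}

section perm

variable {P : Type} [Group P]

/-- the action on the first of three copies -/
def cp (P : Type) [Group P] : P →* Equiv.Perm (P × ZMod 3) where
  toFun p :=
    { toFun := fun y => (if y.2 = 0 then p * y.1 else y.1, y.2)
      invFun := fun y => (if y.2 = 0 then p⁻¹ * y.1 else y.1, y.2)
      left_inv := fun y => by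
        by_cases h : y.2 = 0 <;> simp [h] <;> ext <;> simp [h]
      right_inv := fun y => by
        by_cases h : y.2 = 0 <;> simp [h] <;> ext <;> simp [h] }
  map_one' := by
    ext y <;> simp
  map_mul' p q := by
    ext y
    · by_cases h : y.2 = 0 <;> simp [h, mul_assoc]
    · simp

theorem cp_zero (p y : P) : cp P p (y, 0) = (p * y, 0) := by
  change ((if (0 : ZMod 3) = 0 then p * y else y), (0 : ZMod 3)) = _
  rw [if_pos rfl]

theorem cp_ne (p y : P) {i : ZMod 3} (h : i ≠ 0) : cp P p (y, i) = (y, i) := by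
  change ((if i = 0 then p * y else y), i) = _
  rw [if_neg h]

/-- the shift of the three copies -/
def sh (P : Type) : Equiv.Perm (P × ZMod 3) :=
  Equiv.prodCongr (Equiv.refl P) (Equiv.addRight (1 : ZMod 3))

theorem sh_apply (y : P) (i : ZMod 3) : sh P (y, i) = (y, i + 1) := rfl

theorem sh_inv (y : P) (i : ZMod 3) : (sh P)⁻¹ (y, i) = (y, i - 1) := by
  rw [Equiv.Perm.inv_def, Equiv.symm_apply_eq, sh_apply, sub_add_cancel]

theorem detect {p q : P} (h : cp P p * sh P * cp P q = sh P) : p = 1 ∧ q = 1 := by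
  constructor
  · have h1 := congrArg (fun e : Equiv.Perm (P × ZMod 3) => e (1, 2)) h
    simp only [Equiv.Perm.mul_apply] at h1
    rw [cp_ne q 1 (by decide : (2 : ZMod 3) ≠ 0), sh_apply] at h1
    have e : (2 : ZMod 3) + 1 = 0 := by decide
    rw [e, cp_zero] at h1
    have := congrArg Prod.fst h1
    simpa using this
  · have h1 := congrArg (fun e : Equiv.Perm (P × ZMod 3) => e (1, 0)) h
    simp only [Equiv.Perm.mul_apply] at h1
    rw [cp_zero, sh_apply, sh_apply, cp_ne p _ (by decide : (0 : ZMod 3) + 1 ≠ 0)] at h1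
    have := congrArg Prod.fst h1
    simpa using this

theorem detect' {p q : P} (h : cp P p * (sh P)⁻¹ * cp P q = sh P) : False := by
  have h1 := congrArg (fun e : Equiv.Perm (P × ZMod 3) => e (1, 0)) h
  simp only [Equiv.Perm.mul_apply] at h1
  rw [cp_zero, sh_inv, sh_apply, cp_ne p _ (by decide : (0 : ZMod 3) - 1 ≠ 0)] at h1
  have h2 : (0 : ZMod 3) - 1 = 0 + 1 := congrArg Prod.snd h1
  exact absurd h2 (by decide)

end perm

theorem fi_comap {G G' : Type} [Group G] [Group G'] (f : G' →* G) (H : Subgroup G)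
    [H.FiniteIndex] : (H.comap f).FiniteIndex := by
  refine ⟨?_⟩
  rw [Subgroup.index_comap]
  exact (inferInstance : (H.subgroupOf f.range).FiniteIndex).index_ne_zero

/-- One generator. -/
theorem step (i : Fin n) (W : Subgroup (low i)) [W.FiniteIndex] :
    ∃ (Q : Type) (_ : Group Q) (_ : Finite Q), ∀ w, Shape i w →
      (∀ f : FreeGroup (Fin n) →* Q, f w = f (FreeGroup.of i)) →
      ∃ u ∈ W, ∃ v ∈ W, w = u * FreeGroup.of i * v := by
  classical
  let r : FreeGroup (Fin n) →* low i :=
    FreeGroup.lift (fun j => if h : j < i then ⟨FreeGroup.of j, of_mem_low h⟩ else 1)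
  have hr : ∀ u : low i, r u = u := by
    intro u
    apply Subtype.ext
    have := eqOn_low ((low i).subtype.comp r) (MonoidHom.id _) (i := i) (fun j hj => by
      simp [r, hj]) u.2
    exact this
  let W' : Subgroup (FreeGroup (Fin n)) := W.comap r
  let P := FreeGroup (Fin n) ⧸ W'.normalCore
  let π : FreeGroup (Fin n) →* P := QuotientGroup.mk' _
  have hπ : ∀ u : low i, π u = 1 → u ∈ W := by
    intro u hu
    have h1 : (u : FreeGroup (Fin n)) ∈ W'.normalCore := (QuotientGroup.eq_one_iff _).1 hu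
    have h2 : (u : FreeGroup (Fin n)) ∈ W' := Subgroup.normalCore_le _ h1
    have h3 : r u ∈ W := h2
    rwa [hr] at h3
  let θ : FreeGroup (Fin n) →* Equiv.Perm (P × ZMod 3) :=
    FreeGroup.lift (fun j => if j < i then cp P (π (FreeGroup.of j)) else
      if j = i then sh P else 1)
  have hθ : ∀ u ∈ low i, θ u = cp P (π u) := by
    intro u hu
    have := eqOn_low θ ((cp P).comp π) (i := i) (fun j hj => by
      simp [θ, hj]) hu
    exact this
  have hθi : θ (FreeGroup.of i) = sh P := by
    simp [θ]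
  have hW' : W'.FiniteIndex := fi_comap r W
  have hWn : W'.normalCore.FiniteIndex := inferInstance
  have hPf : Finite P := Subgroup.finite_quotient_of_finiteIndex
  refine ⟨Equiv.Perm (P × ZMod 3), inferInstance, inferInstance, ?_⟩
  rintro w ⟨u, hu, v, hv, h1 | h1⟩ hf
  · have h2 := hf θ
    rw [h1, map_mul, map_mul, hθ u hu, hθ v hv, hθi] at h2
    obtain ⟨h3, h4⟩ := detect h2
    exact ⟨⟨u, hu⟩, hπ ⟨u, hu⟩ h3, ⟨v, hv⟩, hπ ⟨v, hv⟩ h4, h1⟩
  · exfalso
    have h2 := hf θ
    rw [h1, map_mul, map_mul, map_inv, hθ u hu, hθ v hv, hθi] at h2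
    exact detect' h2

/-- the intersection of the kernels of all homomorphisms to `Q` -/
def KK (F Q : Type) [Group F] [Group Q] : Subgroup F := (evHom F Q).ker

theorem mem_KK {F Q : Type} [Group F] [Group Q] {x : F} :
    x ∈ KK F Q ↔ ∀ f : F →* Q, f x = 1 := by
  constructor
  · intro h f
    exact congrFun (show evHom F Q x = 1 from h) f
  · intro h
    exact funext h

instance KK_fin {F Q : Type} [Group F] [Group Q] [Group.FG F] [Finite Q] :
    (KK F Q).FiniteIndex := by
  unfold KK
  infer_instance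

theorem KK_char {F Q : Type} [Group F] [Group Q] : (KK F Q).Characteristic := by
  refine ⟨fun ϕ => ?_⟩
  ext x
  rw [Subgroup.mem_comap, mem_KK, mem_KK]
  constructor
  · intro h f
    have := h (f.comp ϕ.symm.toMonoidHom)
    simpa using this
  · intro h f
    exact h (f.comp ϕ.toMonoidHom)

/-- The version for `Aut`. -/
theorem aut_version (M : Subgroup (tri n)) [M.FiniteIndex] :
    ∃ K : Subgroup (FreeGroup (Fin n)), K.Characteristic ∧ K.FiniteIndex ∧
      ∀ α : tri n, (∀ w, (α : MulAut (FreeGroup (Fin n))) w * w⁻¹ ∈ K) → α ∈ M := by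
  have hf1 : ∀ i : Fin n, (M.comap (left i)).FiniteIndex := fun i => fi_comap _ _
  have hf2 : ∀ i : Fin n, (M.comap (right i)).FiniteIndex := fun i => fi_comap _ _
  have hst := fun i : Fin n => step i (M.comap (left i) ⊓ M.comap (right i))
  choose Q iQ iF hQ using hst
  refine ⟨⨅ i, KK (FreeGroup (Fin n)) (Q i), ?_, ?_, ?_⟩
  · refine ⟨fun ϕ => ?_⟩
    rw [Subgroup.comap_iInf]
    congr 1
    funext i
    exact KK_char.fixed ϕ
  · exact Subgroup.finiteIndex_iInf (fun i => KK_fin)
  · intro α hα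
    have h1 : ∀ i, ∃ u ∈ M.comap (left i) ⊓ M.comap (right i), ∃ v ∈ M.comap (left i) ⊓ M.comap (right i),
        (α : MulAut (FreeGroup (Fin n))) (FreeGroup.of i) = u * FreeGroup.of i * v := by
      intro i
      apply hQ i _ (α.2 i)
      intro f
      have h2 := hα (FreeGroup.of i)
      rw [Subgroup.mem_iInf] at h2
      have h3 := mem_KK.1 (h2 i) f
      rw [map_mul, map_inv, mul_inv_eq_one] at h3
      exact h3
    choose u hu v hv huv using h1
    have h2 : (α : MulAut (FreeGroup (Fin n))) ∈ M.map (tri n).subtype := by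
      apply mem_of_factors _ u v _ huv
      intro i
      refine ⟨left i (u i)⁻¹ * right i (v i), ?_, ?_⟩
      · exact mul_mem (by rw [map_inv]; exact inv_mem (hu i).1) (hv i).2
      · rw [mk_eq]; rfl
    obtain ⟨β, hβ, hβα⟩ := h2
    have : β = α := Subtype.ext hβα
    rw [← this]
    exact hβ

section wr

variable {P : Type} [Group P] [Finite P]

theorem wr_central {p : P} {a g : Wr 3 P} (ha1 : a.f 1 = 1) (ha0 : ∀ z, z ≠ 1 → a.f z = 0)
    (hp : a.q = p) (h : g * a * g⁻¹ = a) : g.q ∈ Subgroup.zpowers p := by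
  classical
  by_contra hne
  have h1 : g * a = a * g := mul_inv_eq_iff_eq_mul.1 h
  have := Fintype.ofFinite P
  have h2 : ∀ z, g.f z + a.f (g.q⁻¹ * z) = a.f z + g.f (p⁻¹ * z) := by
    intro z
    have := congrArg (fun w : Wr 3 P => w.f z) h1
    simp only [Wr.mul_f] at this
    rw [hp] at this
    exact this
  let S : Finset P := Finset.univ.filter (fun z => z ∈ Subgroup.zpowers p)
  have hS : ∀ z, z ∈ S ↔ z ∈ Subgroup.zpowers p := fun z => by simp [S]
  have h3 : ∑ z ∈ S, (g.f z + a.f (g.q⁻¹ * z)) = ∑ z ∈ S, (a.f z + g.f (p⁻¹ * z)) :=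
    Finset.sum_congr rfl (fun z _ => h2 z)
  rw [Finset.sum_add_distrib, Finset.sum_add_distrib] at h3
  have h4 : ∑ z ∈ S, g.f (p⁻¹ * z) = ∑ z ∈ S, g.f z := by
    apply Finset.sum_bij (fun z _ => p⁻¹ * z)
    · intro z hz
      rw [hS] at hz ⊢
      exact mul_mem (inv_mem (Subgroup.mem_zpowers p)) hz
    · intro x _ y _ hxy
      exact mul_left_cancel hxy
    · intro z hz
      rw [hS] at hz
      refine ⟨p * z, ?_, by group⟩
      rw [hS]
      exact mul_mem (Subgroup.mem_zpowers p) hz
    · intro z _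
      rfl
  have h5 : ∑ z ∈ S, a.f z = 1 := by
    rw [Finset.sum_eq_single (1 : P) (fun z _ hz => ha0 z hz), ha1]
    intro h1
    exact absurd ((hS 1).2 (one_mem _)) h1
  have h6 : ∑ z ∈ S, a.f (g.q⁻¹ * z) = 0 := by
    apply Finset.sum_eq_zero
    intro z hz
    rw [hS] at hz
    apply ha0
    intro h7
    apply hne
    rw [inv_mul_eq_one] at h7
    rw [h7]
    exact hz
  rw [h4, h5, h6, add_zero] at h3
  have h7 : (1 : ZMod 3) = 0 := by
    rw [eq_comm, add_eq_right] at h3
    exact h3
  exact absurd h7 (by decide)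

theorem wr_inv {a g : Wr 3 P} (ha1 : a.f 1 = 1) (ha0 : ∀ z, z ≠ 1 → a.f z = 0)
    (h : g * a * g⁻¹ = a⁻¹) : False := by
  classical
  have := Fintype.ofFinite P
  have h1 : g * a = a⁻¹ * g := mul_inv_eq_iff_eq_mul.1 h
  have h2 : ∀ z, g.f z + a.f (g.q⁻¹ * z) = -a.f (a.q * z) + g.f (a.q * z) := by
    intro z
    have := congrArg (fun w : Wr 3 P => w.f z) h1
    simp only [Wr.mul_f, Wr.inv_f, Wr.inv_q, inv_inv] at this
    exact this
  have h3 : ∑ z : P, (g.f z + a.f (g.q⁻¹ * z)) = ∑ z : P, (-a.f (a.q * z) + g.f (a.q * z)) :=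
    Finset.sum_congr rfl (fun z _ => h2 z)
  rw [Finset.sum_add_distrib, Finset.sum_add_distrib, Finset.sum_neg_distrib] at h3
  have h4 : ∀ (x : P) (F : P → ZMod 3), ∑ z : P, F (x * z) = ∑ z : P, F z := fun x F =>
    Equiv.sum_comp (Equiv.mulLeft x) F
  rw [h4 g.q⁻¹ a.f, h4 a.q a.f, h4 a.q g.f] at h3
  have h5 : ∑ z : P, a.f z = 1 := by
    rw [Finset.sum_eq_single (1 : P) (fun z _ hz => ha0 z hz), ha1]
    intro h1
    exact absurd (Finset.mem_univ _) h1
  rw [h5, add_comm (-1 : ZMod 3)] at h3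
  have h6 := add_left_cancel h3
  exact absurd h6 (by decide)

end wr

theorem conj_mem_tri (z : Fin n) (hz : (z : ℕ) = 0) : MulAut.conj (FreeGroup.of z) ∈ tri n := by
  intro i
  by_cases h : i = z
  · subst h
    exact ⟨1, one_mem _, 1, one_mem _, Or.inl (by simp)⟩
  · have hlt : z < i := by
      rw [Fin.lt_def, hz]
      apply Nat.pos_of_ne_zero
      intro h1
      apply h
      apply Fin.ext
      rw [h1, hz]
    exact ⟨FreeGroup.of z, of_mem_low hlt, (FreeGroup.of z)⁻¹, inv_mem (of_mem_low hlt),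
      Or.inl (by simp)⟩

/-- The version for `Out`. -/
theorem out_version (M : Subgroup (tri n)) [M.FiniteIndex]
    (hM : ∀ (g : FreeGroup (Fin n)) (h : MulAut.conj g ∈ tri n), (⟨MulAut.conj g, h⟩ : tri n) ∈ M) :
    ∃ K : Subgroup (FreeGroup (Fin n)), K.Characteristic ∧ K.FiniteIndex ∧
      ∀ α : tri n, (∃ g : FreeGroup (Fin n), ∀ x : FreeGroup (Fin n),
        (α : MulAut (FreeGroup (Fin n))) x * (g * x * g⁻¹)⁻¹ ∈ K) → α ∈ M := by
  classical
  obtain ⟨K, hK, hKf, hKM⟩ := aut_version M
  have hKn : K.Normal := inferInstance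
  let P := FreeGroup (Fin n) ⧸ K
  let π : FreeGroup (Fin n) →* P := QuotientGroup.mk' K
  have hPf : Finite P := inferInstance
  refine ⟨K ⊓ KK (FreeGroup (Fin n)) (Wr 3 P), ?_, inferInstance, ?_⟩
  · refine ⟨fun ϕ => ?_⟩
    rw [Subgroup.comap_inf, hK.fixed ϕ, KK_char.fixed ϕ]
  · rintro α ⟨g, hg⟩
    by_cases hn : n = 0
    · subst hn
      have : α = 1 := by
        apply Subtype.ext
        apply aut_ext
        intro i
        exact i.elim0
      rw [this]
      exact one_mem _
    let z : Fin n := ⟨0, Nat.pos_of_ne_zero hn⟩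
    let χ : FreeGroup (Fin n) →* Wr 3 P := FreeGroup.lift (fun j =>
      ⟨fun y => if j = z then (if y = 1 then 1 else 0) else 0, π (FreeGroup.of j)⟩)
    have hχ : ∀ w, (χ w).q = π w := by
      intro w
      have : (Wr.pr 3 P).comp χ = π := by
        ext j
        simp [χ]
        rfl
      exact DFunLike.congr_fun this w
    have hχ1 : (χ (FreeGroup.of z)).f 1 = 1 := by
      simp [χ]
    have hχ0 : ∀ y, y ≠ 1 → (χ (FreeGroup.of z)).f y = 0 := by
      intro y hy
      simp [χ, hy]
    have hχg : χ g * χ (FreeGroup.of z) * (χ g)⁻¹ =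
        χ ((α : MulAut (FreeGroup (Fin n))) (FreeGroup.of z)) := by
      have h1 := mem_KK.1 (hg (FreeGroup.of z)).2 χ
      rw [map_mul, map_inv, mul_inv_eq_one] at h1
      rw [h1]
      simp
    have hlow : ∀ u ∈ low z, u = 1 := by
      intro u hu
      have : low z = ⊥ := by
        unfold low
        rw [eq_bot_iff, Subgroup.closure_le]
        rintro _ ⟨j, hj, rfl⟩
        exact absurd (Fin.lt_def.1 hj) (Nat.not_lt_zero _)
      rw [this] at hu
      exact hu
    obtain ⟨u, hu, v, hv, h1 | h1⟩ := α.2 z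
    · rw [h1, hlow u hu, hlow v hv, one_mul, mul_one] at hχg
      have h2 := wr_central hχ1 hχ0 rfl hχg
      rw [hχ, hχ] at h2
      obtain ⟨k, hk⟩ := Subgroup.mem_zpowers_iff.1 h2
      -- correct by a power of the inner automorphism
      let c : tri n := ⟨MulAut.conj (FreeGroup.of z), conj_mem_tri z rfl⟩
      have hc : c ∈ M := hM _ _
      have h3 : (c ^ k)⁻¹ * α ∈ M := by
        apply hKM
        intro w
        have e1 : (((c ^ k)⁻¹ * α : tri n) : MulAut (FreeGroup (Fin n))) w =
            (FreeGroup.of z ^ k)⁻¹ * (α : MulAut (FreeGroup (Fin n))) w * FreeGroup.of z ^ k := by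
          have e2 : (((c ^ k)⁻¹ : tri n) : MulAut (FreeGroup (Fin n))) =
              MulAut.conj (FreeGroup.of z ^ k)⁻¹ := by
            rw [map_inv, map_zpow]
            rfl
          change (((c ^ k)⁻¹ : tri n) : MulAut (FreeGroup (Fin n)))
            ((α : MulAut (FreeGroup (Fin n))) w) = _
          rw [e2, MulAut.conj_apply, inv_inv]
        rw [e1]
        have h4 : (α : MulAut (FreeGroup (Fin n))) w * (g * w * g⁻¹)⁻¹ ∈ K := (hg w).1
        rw [← QuotientGroup.eq_one_iff] at h4 ⊢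
        have h5 : π ((α : MulAut (FreeGroup (Fin n))) w) = π g * π w * (π g)⁻¹ := by
          have h6 : π ((α : MulAut (FreeGroup (Fin n))) w * (g * w * g⁻¹)⁻¹) = 1 := h4
          rw [map_mul, map_inv, mul_inv_eq_one] at h6
          rw [h6, map_mul, map_mul, map_inv]
        change π ((FreeGroup.of z ^ k)⁻¹ * (α : MulAut (FreeGroup (Fin n))) w * FreeGroup.of z ^ k
          * w⁻¹) = 1
        rw [map_mul, map_mul, map_mul, map_inv, map_zpow, hk, h5, map_inv]
        group
      have h4 : α = c ^ k * ((c ^ k)⁻¹ * α) := by group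
      rw [h4]
      exact mul_mem (zpow_mem hc k) h3
    · exfalso
      rw [h1, hlow u hu, hlow v hv, one_mul, mul_one, map_inv] at hχg
      exact wr_inv hχ1 hχ0 hχg

end Pool.Agent.Q24.CG
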